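import Pool.Agent.H380.DS.Frost
import Pool.Graph.R_seed8.W342.AG.Cap2
import Pool.Graph.R_pool_sql_team_seeded_3997aac3.Q66.DS.Stm

/-!
# Frostman measures on Borel sets of reals
-/

set_option autoImplicit false

open MeasureTheory Measure Set Metric Filter Topology
open scoped ENNReal NNReal

namespace Pool.Agent.H380.DS

open Pool.Agent.W778.AG (En)

/-- the line as a Euclidean space -/
noncomputable def toE (x : ℝ) : En 1 := WithLp.toLp 2 (fun _ => x)

/-- the coordinate -/
noncomputable def ofE (y : En 1) : ℝ := y 0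

lemma ofE_toE (x : ℝ) : ofE (toE x) = x := rfl

lemma toE_ofE (y : En 1) : toE (ofE y) = y := by
  ext i
  fin_cases i
  rfl

lemma isometry_ofE : Isometry ofE := by
  refine Isometry.of_dist_eq fun x y => ?_
  rw [EuclideanSpace.dist_eq, Fin.sum_univ_one, Real.sqrt_sq dist_nonneg]
  rfl

/-- Borel sets of reals contain compact sets of large dimension -/
theorem cap_real {A : Set ℝ} (hA : MeasurableSet A) {s : ℝ} (hs : 0 ≤ s)
    (hd : ENNReal.ofReal s < dimH A) : ∃ K : Set ℝ, K ⊆ A ∧ IsCompact K ∧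
      ENNReal.ofReal s < dimH K := by
  have hE : MeasurableSet (ofE ⁻¹' A) := isometry_ofE.continuous.measurable hA
  have him : ofE '' (ofE ⁻¹' A) = A := image_preimage_eq A fun x => ⟨toE x, ofE_toE x⟩
  have hdim : dimH (ofE ⁻¹' A) = dimH A := by
    rw [← isometry_ofE.dimH_image, him]
  obtain ⟨K, hKA, hK, hKd⟩ := Pool.Agent.W342.AG.cap 1 (ofE ⁻¹' A) hE s hs (hdim ▸ hd)
  refine ⟨ofE '' K, ?_, hK.image isometry_ofE.continuous, ?_⟩
  · rintro _ ⟨y, hy, rfl⟩
    exact hKA hy
  · rwa [isometry_ofE.dimH_image]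

theorem t_FROB : Pool.Agent.Q66.DS.S_FROB := by
  intro A α hA hα hd
  obtain ⟨K, hKA, hK, hKd⟩ := cap_real hA hα.le hd
  obtain ⟨μ, hμ, hμK, C, hC, hball⟩ := frostman_real hK hα hKd
  obtain ⟨L, hL⟩ := hK.isBounded.subset_closedBall 0
  refine ⟨K, μ, C, L, hKA, hK, hμK, hC, hμ, ?_, hball⟩
  refine measure_mono_null (compl_subset_compl.2 ?_) hμK
  intro x hx
  have h := hL hx
  rw [mem_closedBall, Real.dist_eq, sub_zero, abs_le] at h
  exact h

end Pool.Agent.H380.DS
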