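import Pool.Graph.R_seed8.H380R3.ARW.Frostman

/-!
# Frostman's lemma for compact subsets of the line
-/

set_option autoImplicit false

open MeasureTheory Measure Set Metric Filter Topology
open scoped ENNReal NNReal
open Pool.Agent.H380R3.ARW (idx dyad mem_dyad frostman)

namespace Pool.Agent.H380.DS

/-- the dyadic interval `[a 2^l / 2^m, (a+1) 2^l / 2^m)` -/
def J (m : ℕ) (c : ℕ × (Fin 1 → ℤ)) : Set ℝ :=
  {x | (c.2 0 : ℝ) * 2 ^ c.1 ≤ 2 ^ m * x ∧ 2 ^ m * x < ((c.2 0 : ℝ) + 1) * 2 ^ c.1}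

/-- the integer part of `2^m x` -/
noncomputable def fl (m : ℕ) (x : ℝ) : Fin 1 → ℤ := fun _ => ⌊2 ^ m * x⌋

lemma mem_J_iff (m : ℕ) (c : ℕ × (Fin 1 → ℤ)) (x : ℝ) : x ∈ J m c ↔ fl m x ∈ dyad c := by
  constructor
  · rintro ⟨h1, h2⟩ j
    fin_cases j
    constructor
    · apply Int.le_floor.2
      push_cast
      exact h1
    · apply Int.floor_lt.2
      push_cast
      exact h2
  · intro h
    obtain ⟨h1, h2⟩ := h 0
    constructor
    · have := Int.le_floor.1 h1
      push_cast at this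
      exact this
    · have := Int.floor_lt.1 h2
      push_cast at this
      exact this

/-- the length of the interval -/
noncomputable def len (m l : ℕ) : ℝ := 2 ^ l / 2 ^ m

lemma len_pos (m l : ℕ) : 0 < len m l := by unfold len; positivity

lemma J_eq (m : ℕ) (c : ℕ × (Fin 1 → ℤ)) :
    J m c = Ico ((c.2 0 : ℝ) * len m c.1) (((c.2 0 : ℝ) + 1) * len m c.1) := by
  have h : (0 : ℝ) < 2 ^ m := by positivity
  ext x
  simp only [J, len, mem_Ico, mem_ofPred_eq]
  rw [← mul_div_assoc, ← mul_div_assoc, div_le_iff₀ h, lt_div_iff₀ h, mul_comm x]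

lemma ediam_J (m : ℕ) (c : ℕ × (Fin 1 → ℤ)) : ediam (J m c) = ENNReal.ofReal (len m c.1) := by
  rw [J_eq, Real.ediam_Ico]
  congr 1
  ring

/-- dyadic content is bounded from below -/
lemma content {K : Set ℝ} {s : ℝ} (hs : 0 < s) (hK : μH[s] K ≠ 0) :
    ∃ c : ℝ, 0 < c ∧ ∀ (m : ℕ) (C : Finset (ℕ × (Fin 1 → ℤ))), (K ⊆ ⋃ i ∈ C, J m i) →
      c ≤ ∑ i ∈ C, len m i.1 ^ s := by
  by_contra hcon
  push Not at hcon
  have h1 : ∀ n : ℕ, ∃ (m : ℕ) (C : Finset (ℕ × (Fin 1 → ℤ))), (K ⊆ ⋃ i ∈ C, J m i) ∧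
      ∑ i ∈ C, len m i.1 ^ s < 1 / ((n : ℝ) + 1) := fun n => hcon _ (by positivity)
  choose m C hcov hcost using h1
  apply hK
  have hlen : ∀ (n : ℕ) (i : C n), len (m n) i.1.1 ≤ (1 / ((n : ℝ) + 1)) ^ (1 / s) := by
    intro n i
    have h2 : len (m n) i.1.1 ^ s ≤ 1 / ((n : ℝ) + 1) := by
      refine le_trans ?_ (hcost n).le
      exact Finset.single_le_sum (f := fun i => len (m n) i.1 ^ s)
        (fun j _ => Real.rpow_nonneg (len_pos _ _).le _) i.2
    have h3 : len (m n) i.1.1 = (len (m n) i.1.1 ^ s) ^ (1 / s) := by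
      rw [← Real.rpow_mul (len_pos _ _).le, mul_one_div_cancel hs.ne', Real.rpow_one]
    rw [h3]
    exact Real.rpow_le_rpow (Real.rpow_nonneg (len_pos _ _).le _) h2 (by positivity)
  have h4 : Tendsto (fun n : ℕ => ENNReal.ofReal ((1 / ((n : ℝ) + 1)) ^ (1 / s))) atTop (𝓝 0) := by
    have h5 : Tendsto (fun n : ℕ => (1 / ((n : ℝ) + 1)) ^ (1 / s)) atTop (𝓝 (0 ^ (1 / s))) :=
      tendsto_one_div_add_atTop_nhds_zero_nat.rpow_const (Or.inr (by positivity))
    rw [Real.zero_rpow (by positivity)] at h5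
    have h6 := ENNReal.tendsto_ofReal h5
    rwa [ENNReal.ofReal_zero] at h6
  have h7 := hausdorffMeasure_le_liminf_sum (β := ℕ) (ι := fun n => C n) s K _ h4
    (fun n i => J (m n) i.1) (Eventually.of_forall fun n i => by
      rw [ediam_J]; exact ENNReal.ofReal_le_ofReal (hlen n i))
    (Eventually.of_forall fun n => by
      refine (hcov n).trans ?_
      intro x hx
      simp only [mem_iUnion] at hx ⊢
      obtain ⟨i, hi, hx⟩ := hx
      exact ⟨⟨i, hi⟩, hx⟩)
  refine le_antisymm (h7.trans ?_) bot_le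
  have h8 : ∀ n : ℕ, ∑ i : C n, ediam (J (m n) i.1) ^ s ≤ ENNReal.ofReal (1 / ((n : ℝ) + 1)) := by
    intro n
    have h9 : ∑ i : C n, ediam (J (m n) i.1) ^ s =
        ENNReal.ofReal (∑ i ∈ C n, len (m n) i.1 ^ s) := by
      rw [ENNReal.ofReal_sum_of_nonneg fun i _ => Real.rpow_nonneg (len_pos _ _).le _,
        ← Finset.sum_coe_sort (C n)]
      refine Finset.sum_congr rfl fun i _ => ?_
      rw [ediam_J, ENNReal.ofReal_rpow_of_pos (len_pos _ _)]
    rw [h9]
    exact ENNReal.ofReal_le_ofReal (hcost n).le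
  have h10 : Tendsto (fun n : ℕ => ENNReal.ofReal (1 / ((n : ℝ) + 1))) atTop (𝓝 0) := by
    have h11 := ENNReal.tendsto_ofReal (tendsto_one_div_add_atTop_nhds_zero_nat (𝕜 := ℝ))
    rwa [ENNReal.ofReal_zero] at h11
  calc liminf (fun n => ∑ i : C n, ediam (J (m n) i.1) ^ s) atTop
      ≤ liminf (fun n : ℕ => ENNReal.ofReal (1 / ((n : ℝ) + 1))) atTop :=
        liminf_le_liminf (Eventually.of_forall h8)
    _ = 0 := h10.liminf_eq


/-- discrete approximations of the Frostman measure -/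
lemma exists_disc {K : Set ℝ} (hK : IsCompact K) {s c : ℝ} (hc : 0 < c)
    (hcont : ∀ (m : ℕ) (C : Finset (ℕ × (Fin 1 → ℤ))), (K ⊆ ⋃ i ∈ C, J m i) →
      c ≤ ∑ i ∈ C, len m i.1 ^ s) (m : ℕ) :
    ∃ P : Measure K, IsProbabilityMeasure P ∧ ∀ l ≤ m, ∀ a : Fin 1 → ℤ,
      P {z | z.1 ∈ J m (l, a)} ≤ ENNReal.ofReal (len m l ^ s / c) := by
  classical
  have hfin : (fl m '' K).Finite := by
    obtain ⟨R, hR⟩ := hK.isBounded.subset_closedBall 0
    refine (Set.finite_Icc (fun _ : Fin 1 => ⌊2 ^ m * (-R)⌋) (fun _ : Fin 1 => ⌊2 ^ m * R⌋)).subset ?_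
    rintro _ ⟨x, hx, rfl⟩
    have h := hR hx
    rw [mem_closedBall, Real.dist_eq, sub_zero, abs_le] at h
    constructor
    · intro j
      exact Int.floor_le_floor (by
        apply mul_le_mul_of_nonneg_left h.1 (by positivity))
    · intro j
      exact Int.floor_le_floor (by
        apply mul_le_mul_of_nonneg_left h.2 (by positivity))
  set F : Finset (Fin 1 → ℤ) := hfin.toFinset with hF
  have hmemF : ∀ y, y ∈ F ↔ ∃ x ∈ K, fl m x = y := by
    intro y
    rw [hF, Set.Finite.mem_toFinset]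
    rfl
  have hp : ∀ y : F, ∃ x : K, fl m x.1 = y.1 := by
    intro y
    obtain ⟨x, hx, h⟩ := (hmemF y.1).1 y.2
    exact ⟨⟨x, hx⟩, h⟩
  choose p hp using hp
  obtain ⟨ν, h0, h1, h2, C, h3, h4⟩ := frostman m (fun l => len m l ^ s)
    (fun l => Real.rpow_nonneg (len_pos _ _).le _) F
  set M : ℝ := ∑ y ∈ F, ν y with hM
  have hcM : c ≤ M := by
    refine (hcont m C ?_).trans h4
    intro x hx
    obtain ⟨i, hi, hxi⟩ := h3 (fl m x) ((hmemF _).2 ⟨x, hx, rfl⟩)
    simp only [mem_iUnion]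
    exact ⟨i, hi, (mem_J_iff m i x).2 hxi⟩
  have hMpos : 0 < M := hc.trans_le hcM
  let P : Measure K := (ENNReal.ofReal M)⁻¹ •
    ∑ y : F, ENNReal.ofReal (ν y.1) • Measure.dirac (p y)
  have hMsum : ENNReal.ofReal M = ∑ y : F, ENNReal.ofReal (ν y.1) := by
    rw [hM, ← Finset.sum_coe_sort F, ENNReal.ofReal_sum_of_nonneg fun i _ => h0 _]
  have hM0 : ENNReal.ofReal M ≠ 0 := by
    rw [Ne, ENNReal.ofReal_eq_zero]
    exact not_le.2 hMpos
  refine ⟨P, ⟨?_⟩, ?_⟩
  · simp only [P, Measure.smul_apply, Measure.coe_finsetSum, Finset.sum_apply, smul_eq_mul,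
      Measure.dirac_apply_of_mem (mem_univ _), mul_one]
    rw [← hMsum]
    exact ENNReal.inv_mul_cancel hM0 ENNReal.ofReal_ne_top
  · intro l hl a
    have hS : ∀ y : F, p y ∈ {z : K | z.1 ∈ J m (l, a)} ↔ idx l y.1 = a := by
      intro y
      change (p y).1 ∈ J m (l, a) ↔ _
      rw [mem_J_iff, hp, mem_dyad]
    have hval : P {z | z.1 ∈ J m (l, a)} = (ENNReal.ofReal M)⁻¹ *
        ∑ y : F, if idx l y.1 = a then ENNReal.ofReal (ν y.1) else 0 := by
      simp only [P, Measure.smul_apply, Measure.coe_finsetSum, Finset.sum_apply, smul_eq_mul]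
      congr 1
      refine Finset.sum_congr rfl fun y _ => ?_
      rw [Measure.dirac_apply]
      by_cases h : idx l y.1 = a
      · rw [if_pos h, indicator_of_mem ((hS y).2 h)]
        simp
      · rw [if_neg h, indicator_of_notMem (fun h' => h ((hS y).1 h'))]
        simp
    have hsum : (∑ y : F, if idx l y.1 = a then ENNReal.ofReal (ν y.1) else 0) =
        ENNReal.ofReal (∑ y ∈ F with idx l y = a, ν y) := by
      rw [Finset.sum_coe_sort F (fun y => if idx l y = a then ENNReal.ofReal (ν y) else 0),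
        ← Finset.sum_filter, ENNReal.ofReal_sum_of_nonneg fun i _ => h0 _]
    rw [hval, hsum]
    calc (ENNReal.ofReal M)⁻¹ * ENNReal.ofReal (∑ y ∈ F with idx l y = a, ν y)
        ≤ (ENNReal.ofReal M)⁻¹ * ENNReal.ofReal (len m l ^ s) := by
          gcongr
          exact h2 l hl a
      _ = ENNReal.ofReal (len m l ^ s / M) := by
          rw [ENNReal.ofReal_div_of_pos hMpos, mul_comm, ENNReal.div_eq_inv_mul, mul_comm]
      _ ≤ ENNReal.ofReal (len m l ^ s / c) := by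
          apply ENNReal.ofReal_le_ofReal
          exact div_le_div_of_nonneg_left (Real.rpow_nonneg (len_pos _ _).le _) hc hcM


/-- a ball of radius at most `2^(-j)` meets at most three dyadic intervals of this length -/
lemma ball_subset (j l : ℕ) (x ρ : ℝ) (hρ : ρ ≤ (1 / 2) ^ j) :
    ball x ρ ⊆ J (j + l) (l, fun _ => ⌊2 ^ j * x⌋ - 1) ∪ J (j + l) (l, fun _ => ⌊2 ^ j * x⌋) ∪
      J (j + l) (l, fun _ => ⌊2 ^ j * x⌋ + 1) := by
  intro z hz
  rw [mem_ball, Real.dist_eq, abs_lt] at hz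
  have h2 : (0 : ℝ) < 2 ^ j := by positivity
  have h3 : (2 : ℝ) ^ j * (1 / 2) ^ j = 1 := by rw [← mul_pow]; norm_num
  have h4 : 2 ^ j * z < 2 ^ j * x + 1 := by nlinarith
  have h5 : 2 ^ j * x - 1 < 2 ^ j * z := by nlinarith
  have hf1 := Int.floor_le (2 ^ j * x)
  have hf2 := Int.lt_floor_add_one (2 ^ j * x)
  have hl : (0 : ℝ) < 2 ^ l := by positivity
  have key : ∀ b : ℤ, (b : ℝ) ≤ 2 ^ j * z → 2 ^ j * z < b + 1 →
      z ∈ J (j + l) (l, fun _ => b) := by
    intro b hb1 hb2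
    constructor
    · change (b : ℝ) * 2 ^ l ≤ 2 ^ (j + l) * z
      rw [pow_add]
      nlinarith
    · change 2 ^ (j + l) * z < ((b : ℝ) + 1) * 2 ^ l
      rw [pow_add]
      nlinarith
  rcases lt_or_ge (2 ^ j * z) (⌊2 ^ j * x⌋ : ℝ) with h | h
  · refine Or.inl (Or.inl (key _ ?_ ?_))
    · push_cast; linarith
    · push_cast; linarith
  · rcases lt_or_ge (2 ^ j * z) ((⌊2 ^ j * x⌋ : ℝ) + 1) with h' | h'
    · exact Or.inl (Or.inr (key _ h h'))
    · refine Or.inr (key _ ?_ ?_)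
      · push_cast; linarith
      · push_cast; linarith

/-- the ball condition for the approximations -/
lemma disc_ball {K : Set ℝ} {s c : ℝ} (hs : 0 < s) (hc : 0 < c) {m : ℕ} {P : Measure K}
    (hP : IsProbabilityMeasure P) (hPJ : ∀ l ≤ m, ∀ a : Fin 1 → ℤ,
      P {z | z.1 ∈ J m (l, a)} ≤ ENNReal.ofReal (len m l ^ s / c)) {j : ℕ} (hj : j ≤ m)
    {x ρ : ℝ} (hρ : ρ ≤ (1 / 2) ^ j) :
    P {z | z.1 ∈ ball x ρ} ≤ ENNReal.ofReal (3 * ((1 / 2) ^ j) ^ s / c) := by
  obtain ⟨l, rfl⟩ := Nat.exists_eq_add_of_le hj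
  have hlen : len (j + l) l = (1 / 2) ^ j := by
    unfold len
    rw [pow_add, div_mul_cancel_right₀ (by positivity), one_div, inv_pow]
  have h1 : {z : K | z.1 ∈ ball x ρ} ⊆
      {z | z.1 ∈ J (j + l) (l, fun _ => ⌊2 ^ j * x⌋ - 1)} ∪
      {z | z.1 ∈ J (j + l) (l, fun _ => ⌊2 ^ j * x⌋)} ∪
      {z | z.1 ∈ J (j + l) (l, fun _ => ⌊2 ^ j * x⌋ + 1)} := fun z hz => ball_subset j l x ρ hρ hz
  have h2 := fun a => hPJ l (Nat.le_add_left _ _) a
  simp only [hlen] at h2
  refine (measure_mono h1).trans ((measure_union_le _ _).trans ?_)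
  refine (add_le_add ((measure_union_le _ _).trans (add_le_add (h2 _) (h2 _))) (h2 _)).trans ?_
  have h3 : 0 ≤ ((1 / 2 : ℝ) ^ j) ^ s / c := by positivity
  rw [← ENNReal.ofReal_add h3 h3, ← ENNReal.ofReal_add (by positivity) h3]
  apply ENNReal.ofReal_le_ofReal
  apply le_of_eq
  ring

/-- **Frostman's lemma** for compact sets of reals -/
theorem frostman_real {K : Set ℝ} (hK : IsCompact K) {s : ℝ} (hs : 0 < s)
    (hd : ENNReal.ofReal s < dimH K) :
    ∃ μ : Measure ℝ, IsProbabilityMeasure μ ∧ μ Kᶜ = 0 ∧ ∃ C : ℝ, 0 < C ∧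
      ∀ x r : ℝ, 0 < r → μ (closedBall x r) ≤ ENNReal.ofReal (C * r ^ s) := by
  have hH : μH[s] K ≠ 0 := by
    have h1 : μH[(s.toNNReal : ℝ)] K = ⊤ := hausdorffMeasure_of_lt_dimH hd
    rw [Real.coe_toNNReal s hs.le] at h1
    rw [h1]
    exact ENNReal.top_ne_zero
  obtain ⟨c, hc, hcont⟩ := content hs hH
  have h1 := exists_disc hK hc hcont
  choose P hP hPJ using h1
  have hcomp : CompactSpace K := isCompact_iff_compactSpace.1 hK
  let Q : ℕ → ProbabilityMeasure K := fun m => ⟨P m, hP m⟩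
  obtain ⟨Q', -, hQ'⟩ := isCompact_univ.ultrafilter_le_nhds ((hyperfilter ℕ).map Q)
    (by simp)
  have hlim : Tendsto Q (hyperfilter ℕ : Filter ℕ) (𝓝 Q') := hQ'
  set C : ℝ := max 1 (3 * 2 ^ s / c) with hC
  have hC0 : 0 < C := lt_of_lt_of_le one_pos (le_max_left _ _)
  -- the bound for open balls
  have hopen : ∀ x ρ : ℝ, 0 < ρ → (Q' : Measure K) {z | z.1 ∈ ball x ρ} ≤
      ENNReal.ofReal (C * ρ ^ s) := by
    intro x ρ hρ
    have hG : IsOpen {z : K | z.1 ∈ ball x ρ} := isOpen_ball.preimage continuous_subtype_val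
    refine (ProbabilityMeasure.le_liminf_measure_open_of_tendsto hlim hG).trans ?_
    have hev : ∀ᶠ m in (hyperfilter ℕ : Filter ℕ), (Q m : Measure K) {z | z.1 ∈ ball x ρ} ≤
        ENNReal.ofReal (C * ρ ^ s) := by
      rcases le_or_gt ρ 1 with h | h
      · obtain ⟨j, hj1, hj2⟩ := exists_nat_pow_near_of_lt_one hρ h (by norm_num : (0 : ℝ) < 1 / 2)
          (by norm_num)
        have hat : ∀ᶠ m in (hyperfilter ℕ : Filter ℕ), j ≤ m :=
          (Nat.hyperfilter_le_atTop) (eventually_ge_atTop j)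
        filter_upwards [hat] with m hm
        refine (disc_ball hs hc (hP m) (hPJ m) hm hj2).trans ?_
        apply ENNReal.ofReal_le_ofReal
        have h2 : ((1 / 2 : ℝ) ^ j) ≤ 2 * ρ := by
          rw [pow_succ] at hj1
          linarith
        calc 3 * ((1 / 2 : ℝ) ^ j) ^ s / c ≤ 3 * (2 * ρ) ^ s / c := by gcongr
          _ = 3 * 2 ^ s / c * ρ ^ s := by
            rw [Real.mul_rpow (by norm_num) hρ.le]; ring
          _ ≤ C * ρ ^ s := by
            apply mul_le_mul_of_nonneg_right (le_max_right _ _) (by positivity)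
      · refine Eventually.of_forall fun m => ?_
        refine (prob_le_one (μ := P m)).trans ?_
        rw [← ENNReal.ofReal_one]
        apply ENNReal.ofReal_le_ofReal
        have h3 : 1 ≤ ρ ^ s := Real.one_le_rpow h.le hs.le
        have h4 : 1 ≤ C := le_max_left _ _
        nlinarith
    exact (liminf_le_liminf hev).trans (liminf_const _).le
  refine ⟨(Q' : Measure K).map Subtype.val, ?_, ?_, C * 2 ^ s, by positivity, ?_⟩
  · exact Measure.isProbabilityMeasure_map measurable_subtype_coe.aemeasurable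
  · rw [Measure.map_apply measurable_subtype_coe hK.measurableSet.compl]
    have : (Subtype.val : K → ℝ) ⁻¹' Kᶜ = ∅ := by
      ext z
      simp [z.2]
    rw [this, measure_empty]
  · intro x r hr
    rw [Measure.map_apply measurable_subtype_coe measurableSet_closedBall]
    have h1 : (Subtype.val : K → ℝ) ⁻¹' closedBall x r ⊆ {z | z.1 ∈ ball x (2 * r)} := by
      intro z hz
      exact closedBall_subset_ball (by linarith) hz
    refine (measure_mono h1).trans ((hopen x (2 * r) (by positivity)).trans ?_)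
    apply ENNReal.ofReal_le_ofReal
    rw [Real.mul_rpow (by norm_num) hr.le, mul_assoc]

end Pool.Agent.H380.DS
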